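import Mathlib

/-!
# Circular `k`-matching-planar drawings without a lightly pierced triangulation

The vertices of a circular drawing are numbered `0, 1, ..., n - 1` in their order around the circle.
For `n = 4 k + 3` the cycle drawn as the star polygon whose edges join vertices at cyclic distance
`k + 1` is `k`-matching-planar: the shorter open arc cut off by an edge holds only `k` vertices, and
every crossing edge has an endpoint there. Every triangulation of the outer cycle has a segment that
has at least `k + 1` vertices in either open arc, not too unbalanced, and such a segment is pierced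
by `k + 1` pairwise independent edges.
-/

set_option autoImplicit false

namespace Pool.Agent.Results.MP_755a2c_co.NoLightTriangulation

/-- Two segments between points that are numbered in their order around a circle cross: they have no
common endpoint and their endpoints alternate around the circle. -/
def Crosses {n : ℕ} (e f : Sym2 (Fin n)) : Prop :=
  ∃ a b c d : Fin n, e = s(a, b) ∧ f = s(c, d) ∧
    ((a < c ∧ c < b ∧ b < d) ∨ (c < a ∧ a < d ∧ d < b))

/-- The set `S` of segments contains `m` pairwise independent ones (no two share an endpoint). -/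
def HasMatching {n : ℕ} (S : Set (Sym2 (Fin n))) (m : ℕ) : Prop :=
  ∃ M : Finset (Sym2 (Fin n)), (∀ e ∈ M, e ∈ S) ∧ M.card = m ∧
    ∀ e ∈ M, ∀ f ∈ M, e ≠ f → ∀ v, v ∈ e → v ∉ f

/-- The circular drawing of `G` (vertex `i` is the `i`-th vertex around the circle) is
`k`-matching-planar: for no edge `e` do the edges crossing `e` contain a matching of size `k + 1`. -/
def KMatchingPlanar {n : ℕ} (k : ℕ) (G : SimpleGraph (Fin n)) : Prop :=
  ∀ e ∈ G.edgeSet, ¬ HasMatching {f | f ∈ G.edgeSet ∧ Crosses e f} (k + 1)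

/-- The sides of the outer cycle `0, 1, ..., n - 1, 0`. -/
def IsSide {n : ℕ} (e : Sym2 (Fin n)) : Prop :=
  ∃ i j : Fin n, e = s(i, j) ∧ (i.val + 1 = j.val ∨ (i.val = 0 ∧ j.val + 1 = n))

/-- The diagonals: segments between two different vertices that are not sides. -/
def IsDiagonal {n : ℕ} (e : Sym2 (Fin n)) : Prop := ¬ e.IsDiag ∧ ¬ IsSide e

/-- `D` is a set of pairwise non-crossing diagonals. -/
def IsNonCrossing {n : ℕ} (D : Set (Sym2 (Fin n))) : Prop :=
  (∀ e ∈ D, IsDiagonal e) ∧ ∀ e ∈ D, ∀ f ∈ D, ¬ Crosses e f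

/-- `T` is a triangulation of the outer cycle: the sides together with an inclusion-maximal set of
pairwise non-crossing diagonals. -/
def IsTriangulation {n : ℕ} (T : Set (Sym2 (Fin n))) : Prop :=
  ∃ D : Set (Sym2 (Fin n)), Maximal IsNonCrossing D ∧ T = {e | IsSide e} ∪ D

/-! ### Crossing segments -/

theorem crosses_comm {n : ℕ} {e f : Sym2 (Fin n)} (h : Crosses e f) : Crosses f e := by
  obtain ⟨a, b, c, d, he, hf, h⟩ := h
  exact ⟨c, d, a, b, hf, he, h.symm⟩

theorem crosses_mk {n : ℕ} {a b c d : Fin n} (hab : a < b) (hcd : c < d) :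
    Crosses s(a, b) s(c, d) ↔ ((a < c ∧ c < b ∧ b < d) ∨ (c < a ∧ a < d ∧ d < b)) := by
  constructor
  · rintro ⟨a', b', c', d', he, hf, h⟩
    rw [Sym2.eq_iff] at he hf
    rcases he with ⟨rfl, rfl⟩ | ⟨rfl, rfl⟩ <;> rcases hf with ⟨rfl, rfl⟩ | ⟨rfl, rfl⟩ <;>
      simp only [Fin.lt_def] at * <;> omega
  · intro h
    exact ⟨a, b, c, d, rfl, rfl, h⟩

theorem isSide_mk {n : ℕ} {a b : Fin n} (hab : a < b) :
    IsSide s(a, b) ↔ (a.val + 1 = b.val ∨ (a.val = 0 ∧ b.val + 1 = n)) := by
  constructor
  · rintro ⟨i, j, he, h⟩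
    rw [Sym2.eq_iff] at he
    have := a.isLt
    have := b.isLt
    rcases he with ⟨rfl, rfl⟩ | ⟨rfl, rfl⟩ <;> simp only [Fin.lt_def] at * <;> omega
  · intro h
    exact ⟨a, b, rfl, h⟩

/-- Every segment that is not degenerate is `s(a, b)` with `a < b`. -/
theorem exists_lt {n : ℕ} {e : Sym2 (Fin n)} (h : ¬ e.IsDiag) :
    ∃ a b : Fin n, a < b ∧ e = s(a, b) := by
  induction e using Sym2.ind with
  | _ x y =>
    rcases lt_trichotomy x y with h' | h' | h'
    · exact ⟨x, y, h', rfl⟩
    · exact absurd h' (by simpa using h)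
    · exact ⟨y, x, h', Sym2.eq_swap⟩

theorem side_not_diag {n : ℕ} {e : Sym2 (Fin n)} (hn : 3 ≤ n) (h : IsSide e) : ¬ e.IsDiag := by
  obtain ⟨i, j, rfl, h⟩ := h
  rw [Sym2.mk_isDiag_iff]
  rintro rfl
  omega

theorem not_crosses_side {n : ℕ} {e f : Sym2 (Fin n)} (h : IsSide e) : ¬ Crosses e f := by
  rintro ⟨a, b, c, d, he, hf, h'⟩
  subst he
  have := a.isLt
  have := b.isLt
  have := c.isLt
  have := d.isLt
  have hab : a < b := by
    simp only [Fin.lt_def] at *; omega
  rw [isSide_mk hab] at h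
  simp only [Fin.lt_def] at *
  omega

/-! ### Triangulations -/

section Tri

variable {n : ℕ} {T : Set (Sym2 (Fin n))}

theorem tri_nondeg (hn : 3 ≤ n) (hT : IsTriangulation T) {e : Sym2 (Fin n)} (he : e ∈ T) :
    ¬ e.IsDiag := by
  obtain ⟨D, hD, rfl⟩ := hT
  rcases he with he | he
  · exact side_not_diag hn he
  · exact (hD.prop.1 e he).1

theorem tri_noncrossing (hT : IsTriangulation T) {e f : Sym2 (Fin n)} (he : e ∈ T) (hf : f ∈ T) :
    ¬ Crosses e f := by
  obtain ⟨D, hD, rfl⟩ := hT
  rcases he with he | he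
  · exact not_crosses_side he
  · rcases hf with hf | hf
    · exact fun h => not_crosses_side hf (crosses_comm h)
    · exact hD.prop.2 e he f hf

theorem tri_side (hT : IsTriangulation T) {e : Sym2 (Fin n)} (he : IsSide e) : e ∈ T := by
  obtain ⟨D, hD, rfl⟩ := hT
  exact Or.inl he

theorem not_crosses_self {e : Sym2 (Fin n)} : ¬ Crosses e e := by
  rintro ⟨a, b, c, d, he, hf, h⟩
  rw [he, Sym2.eq_iff] at hf
  rcases hf with ⟨rfl, rfl⟩ | ⟨rfl, rfl⟩ <;> simp only [Fin.lt_def] at * <;> omega

/-- A segment that crosses no segment of a triangulation belongs to it. -/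
theorem tri_maximal (hT : IsTriangulation T) {e : Sym2 (Fin n)} (he : ¬ e.IsDiag)
    (h : ∀ f ∈ T, ¬ Crosses e f) : e ∈ T := by
  obtain ⟨D, hD, rfl⟩ := hT
  by_cases hs : IsSide e
  · exact Or.inl hs
  · right
    have h1 : IsNonCrossing (insert e D) := by
      refine ⟨?_, ?_⟩
      · rintro f (rfl | hf)
        · exact ⟨he, hs⟩
        · exact hD.prop.1 f hf
      · rintro f (rfl | hf) g (rfl | hg)
        · exact not_crosses_self
        · exact h g (Or.inr hg)
        · exact fun h' => h f (Or.inr hf) (crosses_comm h')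
        · exact hD.prop.2 f hf g hg
    exact hD.le_of_ge h1 (Set.subset_insert e D) (Set.mem_insert e D)

/-- Below each segment `ab` of a triangulation that is not a side `i, i + 1` there is a triangle. -/
theorem tri_apex (hT : IsTriangulation T) {a b : Fin n} (hab : a.val + 1 < b.val)
    (h : s(a, b) ∈ T) : ∃ c : Fin n, a < c ∧ c < b ∧ s(a, c) ∈ T ∧ s(c, b) ∈ T := by
  classical
  have hbn := b.isLt
  have hne : ∃ m : ℕ, ∃ hm : m < n, a.val < m ∧ m < b.val ∧ s((⟨m, hm⟩ : Fin n), b) ∈ T := by
    refine ⟨b.val - 1, by omega, by omega, by omega, ?_⟩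
    apply tri_side hT
    exact ⟨_, _, rfl, Or.inl (by simp; omega)⟩
  have hmin := Nat.find_spec hne
  have hlt := fun m' => Nat.find_min hne (m := m')
  set m := Nat.find hne with hm
  obtain ⟨hmn, ham, hmb, hmT⟩ := hmin
  refine ⟨⟨m, hmn⟩, ham, hmb, ?_, hmT⟩
  apply tri_maximal hT
  · rw [Sym2.mk_isDiag_iff]
    intro h'
    have := congrArg Fin.val h'
    simp at this
    omega
  · intro f hf hc
    have hn3 : 3 ≤ n := by omega
    obtain ⟨x, y, hxy, rfl⟩ := exists_lt (tri_nondeg hn3 hT hf)
    have h1 := tri_noncrossing hT hf h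
    have h2 := tri_noncrossing hT hf hmT
    rw [crosses_mk (by simp only [Fin.lt_def]; omega) hxy] at hc
    rw [crosses_mk hxy (by simp only [Fin.lt_def]; omega)] at h1
    rw [crosses_mk hxy (by simp only [Fin.lt_def]; omega)] at h2
    simp only [Fin.lt_def] at *
    by_cases hyb : y.val = b.val
    · have hyb' : y = b := Fin.ext hyb
      subst hyb'
      have hxm : x.val < m := by omega
      refine hlt x.val hxm ⟨x.isLt, by omega, by omega, ?_⟩
      simpa using hf
    · omega

/-- Every triangulation has a segment `ab` with `l ≤ b - a ≤ 2 l - 2`. -/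
theorem tri_balanced (hT : IsTriangulation T) {l : ℕ} (hl : 2 ≤ l) (hn : l + 1 ≤ n) :
    ∃ a b : Fin n, a < b ∧ s(a, b) ∈ T ∧ l ≤ b.val - a.val ∧ b.val - a.val ≤ 2 * l - 2 := by
  classical
  have hne : ∃ m : ℕ, l ≤ m ∧ ∃ a b : Fin n, a < b ∧ s(a, b) ∈ T ∧ b.val - a.val = m := by
    refine ⟨n - 1, by omega, ⟨0, by omega⟩, ⟨n - 1, by omega⟩, ?_, ?_, ?_⟩
    · simp only [Fin.lt_def]; omega
    · apply tri_side hT
      exact ⟨_, _, rfl, Or.inr ⟨rfl, by simp; omega⟩⟩
    · simp
  have hmin := Nat.find_spec hne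
  have hlt := fun m' => Nat.find_min hne (m := m')
  set m := Nat.find hne with hm
  obtain ⟨hlm, a, b, hab, habT, hd⟩ := hmin
  refine ⟨a, b, hab, habT, by omega, ?_⟩
  simp only [Fin.lt_def] at hab
  obtain ⟨c, hac, hcb, hacT, hcbT⟩ := tri_apex hT (a := a) (b := b) (by omega) habT
  have h1 : c.val - a.val < l := by
    by_contra hcon
    refine hlt (c.val - a.val) ?_ ⟨by omega, a, c, hac, hacT, rfl⟩
    simp only [Fin.lt_def] at hac hcb; omega
  have h2 : b.val - c.val < l := by
    by_contra hcon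
    refine hlt (b.val - c.val) ?_ ⟨by omega, c, b, hcb, hcbT, rfl⟩
    simp only [Fin.lt_def] at hac hcb; omega
  simp only [Fin.lt_def] at hac hcb
  omega

end Tri

/-! ### The star polygon -/

/-- The cycle on `4 k + 3` vertices drawn as the star polygon with step `k + 1`: the edges join the
vertices at cyclic distance `k + 1`. -/
def star (k : ℕ) : SimpleGraph (Fin (4 * k + 3)) where
  Adj i j := i.val + (k + 1) = j.val ∨ j.val + (k + 1) = i.val ∨
    i.val + (k + 1) = j.val + (4 * k + 3) ∨ j.val + (k + 1) = i.val + (4 * k + 3)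
  symm := ⟨fun i j h => by omega⟩
  loopless := ⟨fun i h => by have := i.isLt; omega⟩

theorem card_le_of_hits {n : ℕ} {M : Finset (Sym2 (Fin n))} {I : Finset (Fin n)}
    (hM : ∀ e ∈ M, ∀ f ∈ M, e ≠ f → ∀ v, v ∈ e → v ∉ f) (hI : ∀ e ∈ M, ∃ v ∈ I, v ∈ e) :
    M.card ≤ I.card := by
  classical
  rcases M.eq_empty_or_nonempty with rfl | ⟨e0, he0⟩
  · simp
  have hne : Nonempty (Fin n) := ⟨(hI e0 he0).choose⟩
  choose! g hg using hI
  apply Finset.card_le_card_of_injOn g
  · intro e he
    exact (hg e he).1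
  · intro e he f hf hef
    by_contra hne
    exact hM e he f hf hne (g e) (hg e he).2 (hef ▸ (hg f hf).2)

theorem star_kmp (k : ℕ) : KMatchingPlanar k (star k) := by
  classical
  intro e he
  rintro ⟨M, hMS, hMc, hMi⟩
  obtain ⟨a, b, hab, rfl⟩ := exists_lt (SimpleGraph.not_isDiag_of_mem_edgeSet _ he)
  rw [SimpleGraph.mem_edgeSet] at he
  simp only [star] at he
  have han := a.isLt
  have hbn := b.isLt
  simp only [Fin.lt_def] at hab
  -- the endpoints of the shorter arc
  obtain ⟨I, hIc, hIs⟩ : ∃ I : Finset (Fin (4 * k + 3)), I.card ≤ k ∧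
      ∀ f : Sym2 (Fin (4 * k + 3)), f ∈ (star k).edgeSet → Crosses s(a, b) f → ∃ v ∈ I, v ∈ f := by
    rcases (by omega : b.val = a.val + (k + 1) ∨ b.val + (k + 1) = a.val + (4 * k + 3)) with h | h
    · refine ⟨Finset.Ioo a b, ?_, ?_⟩
      · rw [Fin.card_Ioo]; omega
      · rintro f hf hc
        obtain ⟨c, d, hcd, rfl⟩ := exists_lt (SimpleGraph.not_isDiag_of_mem_edgeSet _ hf)
        rw [crosses_mk (by simpa only [Fin.lt_def] using hab) hcd] at hc
        rcases hc with hc | hc
        · exact ⟨c, Finset.mem_Ioo.2 ⟨hc.1, hc.2.1⟩, Sym2.mem_mk_left _ _⟩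
        · exact ⟨d, Finset.mem_Ioo.2 ⟨hc.2.1, hc.2.2⟩, Sym2.mem_mk_right _ _⟩
    · refine ⟨(Finset.Icc a b)ᶜ, ?_, ?_⟩
      · rw [Finset.card_compl, Fin.card_Icc, Fintype.card_fin]; omega
      · rintro f hf hc
        obtain ⟨c, d, hcd, rfl⟩ := exists_lt (SimpleGraph.not_isDiag_of_mem_edgeSet _ hf)
        rw [crosses_mk (by simpa only [Fin.lt_def] using hab) hcd] at hc
        rcases hc with hc | hc
        · refine ⟨d, ?_, Sym2.mem_mk_right _ _⟩
          rw [Finset.mem_compl, Finset.mem_Icc]
          exact fun h' => absurd h'.2 (not_le.2 hc.2.2)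
        · refine ⟨c, ?_, Sym2.mem_mk_left _ _⟩
          rw [Finset.mem_compl, Finset.mem_Icc]
          exact fun h' => absurd h'.1 (not_le.2 hc.1)
  have := card_le_of_hits hMi (I := I) (fun f hf => hIs f (hMS f hf).1 (hMS f hf).2)
  omega

/-- A balanced segment is pierced by `k + 1` independent edges of the star polygon. -/
theorem star_pierced {k : ℕ} (hk : 1 ≤ k) {a b : Fin (4 * k + 3)} (h1 : k + 2 ≤ b.val - a.val)
    (h2 : b.val - a.val ≤ 2 * k + 2) :
    HasMatching {f | f ∈ (star k).edgeSet ∧ Crosses s(a, b) f} (k + 1) := by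
  classical
  have han := a.isLt
  have hbn := b.isLt
  have hab : a < b := by simp only [Fin.lt_def]; omega
  -- the inner and the outer endpoints
  let u : Fin (k + 1) → Fin (4 * k + 3) := fun t =>
    if t.val = 0 then ⟨a.val + 1, by omega⟩ else ⟨b.val - t.val, by omega⟩
  let w : Fin (k + 1) → Fin (4 * k + 3) := fun t =>
    if h : t.val = 0 then (if h' : k ≤ a.val then ⟨a.val - k, by omega⟩
      else ⟨a.val + (4 * k + 3) - k, by omega⟩)
    else (if h' : b.val - t.val + (k + 1) < 4 * k + 3 then ⟨b.val - t.val + (k + 1), h'⟩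
      else ⟨b.val - t.val + (k + 1) - (4 * k + 3), by omega⟩)
  have hu : ∀ t : Fin (k + 1), (u t).val = if t.val = 0 then a.val + 1 else b.val - t.val := by
    intro t; simp only [u]; split_ifs <;> rfl
  have hw : ∀ t : Fin (k + 1), (w t).val = if t.val = 0 then (if k ≤ a.val then a.val - k
      else a.val + (4 * k + 3) - k) else (if b.val - t.val + (k + 1) < 4 * k + 3 then
      b.val - t.val + (k + 1) else b.val - t.val + (k + 1) - (4 * k + 3)) := by
    intro t; simp only [w]; split_ifs <;> rfl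
  have huu : ∀ s t : Fin (k + 1), s ≠ t → u s ≠ u t := by
    intro s t hst h
    have h' := congrArg Fin.val h
    have hst' : s.val ≠ t.val := fun h => hst (Fin.ext h)
    have := s.isLt
    have := t.isLt
    rw [hu, hu] at h'
    split_ifs at h' <;> omega
  have hww : ∀ s t : Fin (k + 1), s ≠ t → w s ≠ w t := by
    intro s t hst h
    have h' := congrArg Fin.val h
    have hst' : s.val ≠ t.val := fun h => hst (Fin.ext h)
    have := s.isLt
    have := t.isLt
    rw [hw, hw] at h'
    split_ifs at h' <;> omega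
  have hu1 : ∀ t : Fin (k + 1), a.val < (u t).val ∧ (u t).val < b.val := by
    intro t
    have := t.isLt
    rw [hu]
    split_ifs <;> omega
  have hw1 : ∀ t : Fin (k + 1), (w t).val < a.val ∨ b.val < (w t).val := by
    intro t
    have := t.isLt
    rw [hw]
    split_ifs <;> omega
  have huw : ∀ s t : Fin (k + 1), u s ≠ w t := by
    intro s t h
    have h' := congrArg Fin.val h
    have := hu1 s
    have := hw1 t
    omega
  have hadj : ∀ t : Fin (k + 1), (star k).Adj (u t) (w t) := by
    intro t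
    have := t.isLt
    simp only [star]
    rw [hu, hw]
    split_ifs <;> omega
  have hcross : ∀ t : Fin (k + 1), Crosses s(a, b) s(u t, w t) := by
    intro t
    have h3 := hu1 t
    rcases hw1 t with h | h
    · exact ⟨a, b, w t, u t, rfl, Sym2.eq_swap, Or.inr ⟨h, h3.1, h3.2⟩⟩
    · exact ⟨a, b, u t, w t, rfl, rfl, Or.inl ⟨h3.1, h3.2, h⟩⟩
  have hdisj : ∀ s t : Fin (k + 1), s ≠ t → ∀ v, v ∈ s(u s, w s) → v ∉ s(u t, w t) := by
    intro s t hst v hv hv'
    rw [Sym2.mem_iff] at hv hv'
    rcases hv with rfl | rfl <;> rcases hv' with h | h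
    · exact huu s t hst h
    · exact huw s t h
    · exact huw t s h.symm
    · exact hww s t hst h
  have hinj : Function.Injective (fun t : Fin (k + 1) => s(u t, w t)) := by
    intro s t hst
    by_contra hne
    have hst' : s(u s, w s) = s(u t, w t) := hst
    exact hdisj s t hne (u s) (Sym2.mem_mk_left _ _) (hst' ▸ Sym2.mem_mk_left _ _)
  refine ⟨Finset.univ.image (fun t : Fin (k + 1) => s(u t, w t)), ?_, ?_, ?_⟩
  · intro e he
    obtain ⟨t, -, rfl⟩ := Finset.mem_image.1 he
    exact ⟨hadj t, hcross t⟩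
  · rw [Finset.card_image_of_injective _ hinj, Finset.card_univ, Fintype.card_fin]
  · intro e he f hf hne
    obtain ⟨s, -, rfl⟩ := Finset.mem_image.1 he
    obtain ⟨t, -, rfl⟩ := Finset.mem_image.1 hf
    exact hdisj s t (fun h => hne (by rw [h]))

/-- For every `k ≥ 1` there is a circular `k`-matching-planar drawing of a graph such that every
triangulation of its outer cycle has a segment that is pierced by `k + 1` pairwise independent
edges. -/
theorem result : ∀ k : ℕ, 1 ≤ k → ∃ (n : ℕ) (G : SimpleGraph (Fin n)), 3 ≤ n ∧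
    KMatchingPlanar k G ∧ ∀ T : Set (Sym2 (Fin n)), IsTriangulation T →
      ∃ t ∈ T, HasMatching {f | f ∈ G.edgeSet ∧ Crosses t f} (k + 1) := by
  intro k hk
  refine ⟨4 * k + 3, star k, by omega, star_kmp k, ?_⟩
  intro T hT
  obtain ⟨a, b, -, habT, h1, h2⟩ := tri_balanced hT (l := k + 2) (by omega) (by omega)
  exact ⟨s(a, b), habT, star_pierced hk h1 (by omega)⟩

end Pool.Agent.Results.MP_755a2c_co.NoLightTriangulation
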